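import Pool.Agent.Helper18_X2.Stmts
import Pool.Agent.Helper51_AWC.ProdSum

/-!
# AWC, part X2: FXC, centralisers of `ℓ`-groups
-/

open scoped BigOperators

noncomputable section

namespace Pool.Agent.PP.X2.H51

open Pool.Agent.Helper51_AWC Pool.Agent.Helper79_WRA Pool.Agent.PP

/-! ### Transport of the classes -/

theorem covS_of_equiv {K K' S : Type} [Group K] [Group K'] [Group S] (e : K ≃* K')
    (h : CovS K S) : CovS K' S := by
  obtain ⟨h1, f, hf, hk⟩ := h
  refine ⟨?_, f.comp e.symm.toMonoidHom, hf.comp e.symm.surjective, ?_⟩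
  · have h2 : (commutator K).map e.toMonoidHom = commutator K' := by
      rw [commutator_def, commutator_def, Subgroup.map_commutator,
        Subgroup.map_top_of_surjective _ e.surjective]
    rw [← h2, h1, Subgroup.map_top_of_surjective _ e.surjective]
  · intro x hx
    have h2 : e.symm x ∈ f.ker := hx
    have h3 := hk h2
    rw [Subgroup.mem_center_iff] at h3 ⊢
    intro y
    have h4 := h3 (e.symm y)
    apply e.symm.injective
    rw [map_mul, map_mul]
    exact h4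

theorem lay_map {ℓ : ℕ} {𝒜 : Fam} {H H' : Type} [Group H] [Group H'] (φ : H →* H')
    (hφ : Function.Injective φ) {E : Subgroup H} (h : Lay ℓ 𝒜 E) : Lay ℓ 𝒜 (E.map φ) := by
  obtain ⟨I, hI, K, hK⟩ := h
  refine ⟨I, hI, fun i => (K i).map φ, ?_, ?_, ?_⟩
  · rintro i j hij _ ⟨x, hx, rfl⟩ _ ⟨y, hy, rfl⟩
    rw [← map_mul, hK.comm i j hij x hx y hy, map_mul]
  · rw [← Subgroup.map_iSup, hK.sup]
  · intro i
    obtain ⟨S, g1, g2, h1, h2, h3, h4⟩ := hK.cov i
    exact ⟨S, g1, g2, h1, h2, h3, covS_of_equiv ((K i).equivMapOfInjective φ hφ) h4⟩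

theorem lay_subgroupOf {ℓ : ℕ} {𝒜 : Fam} {H : Type} [Group H] {E T : Subgroup H} (hT : E ≤ T)
    (h : Lay ℓ 𝒜 E) : Lay ℓ 𝒜 (E.subgroupOf T) := by
  obtain ⟨I, hI, K, hK⟩ := h
  have hKT : ∀ i, K i ≤ T := fun i => (le_iSup K i).trans (hK.sup.le.trans hT)
  refine ⟨I, hI, fun i => (K i).subgroupOf T, ?_, ?_, ?_⟩
  · intro i j hij x hx y hy
    exact Subtype.ext (hK.comm i j hij x hx y hy)
  · apply Subgroup.map_injective T.subtype_injective
    rw [Subgroup.map_iSup, Subgroup.subgroupOf_map_subtype, inf_eq_left.2 hT, ← hK.sup]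
    exact iSup_congr fun i => by
      rw [Subgroup.subgroupOf_map_subtype, inf_eq_left.2 (hKT i)]
  · intro i
    obtain ⟨S, g1, g2, h1, h2, h3, h4⟩ := hK.cov i
    exact ⟨S, g1, g2, h1, h2, h3,
      covS_of_equiv (Subgroup.subgroupOfEquivOfLe (hKT i)).symm h4⟩

theorem modA_subgroupOf {ℓ : ℕ} {𝒜 : Fam} {G : Type} [Group G] {A B : Subgroup G}
    (X : Subgroup G) (h : ModA ℓ 𝒜 A B) : ModA ℓ 𝒜 (A.subgroupOf X) (B.subgroupOf X) := by
  intro S _ _ hS hd K hK f hf h1
  set e := K.equivMapOfInjective X.subtype X.subtype_injective with he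
  refine h S hS hd (K.map X.subtype) ?_ (f.comp e.symm.toMonoidHom)
    (hf.comp e.symm.surjective) ?_
  · rintro _ ⟨x, hx, rfl⟩
    exact hK hx
  · intro x hx
    obtain ⟨y, rfl⟩ := e.surjective x
    have h2 : (y : X) ∈ B.subgroupOf X := hx
    have h3 : f (e.symm (e y)) = 1 := by
      rw [e.symm_apply_apply]
      exact h1 y h2
    exact h3

/-! ### The core -/

section core

variable {ℓ : ℕ} {G : Type} [Group G]

theorem opc_ne {R A : Subgroup G} (hRA : R ≤ A) (hR : R ≠ ⊥) (hp : IsPGroup ℓ R)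
    (hn : A ≤ Subgroup.normalizer (R : Set G)) : opCore ℓ A ≠ ⊥ := by
  intro h
  have h1 : R.subgroupOf A ≤ opCore ℓ A := by
    apply le_sSup
    exact ⟨Subgroup.normal_subgroupOf_of_le_normalizer hn,
      hp.of_equiv (Subgroup.subgroupOfEquivOfLe hRA).symm⟩
  rw [h, le_bot_iff, Subgroup.subgroupOf_eq_bot] at h1
  exact hR (h1.eq_bot_of_le hRA)

theorem opc_spec [Fact ℓ.Prime] [Finite G] {A : Subgroup G} (h : opCore ℓ A ≠ ⊥) :
    ∃ R : Subgroup G, R ≤ A ∧ R ≠ ⊥ ∧ IsPGroup ℓ R ∧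
      Subgroup.normalizer (A : Set G) ≤ Subgroup.normalizer (R : Set G) := by
  obtain ⟨h1, h2, h3⟩ := opCore_spec ℓ A
  have hRA : (opCore ℓ A).map A.subtype ≤ A := Subgroup.map_subtype_le _
  refine ⟨(opCore ℓ A).map A.subtype, hRA, ?_, h2.map _, ?_⟩
  · intro h4
    exact h ((Subgroup.map_eq_bot_iff_of_injective _ A.subtype_injective).1 h4)
  · -- enough: one inclusion
    have key : ∀ g ∈ Subgroup.normalizer (A : Set G), ∀ r ∈ (opCore ℓ A).map A.subtype,
        g * r * g⁻¹ ∈ (opCore ℓ A).map A.subtype := by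
      intro g hg r hr
      have hgA : ∀ a ∈ A, g * a * g⁻¹ ∈ A := fun a ha => (Subgroup.mem_normalizer_iff.1 hg a).1 ha
      have hgA' : ∀ a ∈ A, g⁻¹ * a * g ∈ A := fun a ha => by
        have := (Subgroup.mem_normalizer_iff.1 (inv_mem hg) a).1 ha
        rwa [inv_inv] at this
      -- the conjugate as a subgroup of A
      have hcA : conjS g ((opCore ℓ A).map A.subtype) ≤ A := by
        intro x hx
        rw [mem_conjS] at hx
        have := hgA _ (hRA hx)
        simpa [mul_assoc] using this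
      have h5 : (conjS g ((opCore ℓ A).map A.subtype)).subgroupOf A ≤ opCore ℓ A := by
        apply h3
        · refine ⟨?_⟩
          intro x hx a
          rw [Subgroup.mem_subgroupOf, mem_conjS] at hx ⊢
          obtain ⟨y, hy, hyx⟩ := hx
          refine ⟨⟨g⁻¹ * a * g, hgA' _ a.2⟩ * y * (⟨g⁻¹ * a * g, hgA' _ a.2⟩)⁻¹,
            h1.conj_mem y hy _, ?_⟩
          have hyx' : (y : G) = g⁻¹ * (x : G) * g := hyx
          show g⁻¹ * a * g * (y : G) * (g⁻¹ * a * g)⁻¹ = g⁻¹ * ((a * x * a⁻¹ : A) : G) * g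
          rw [hyx']
          push_cast
          group
        · exact (conjS_pgroup (h2.map _)).of_equiv (Subgroup.subgroupOfEquivOfLe hcA).symm
      have h6 : g * r * g⁻¹ ∈ conjS g ((opCore ℓ A).map A.subtype) := by
        rw [mem_conjS]
        simpa [mul_assoc] using hr
      have h7 : (⟨g * r * g⁻¹, hcA h6⟩ : A) ∈
          (conjS g ((opCore ℓ A).map A.subtype)).subgroupOf A := h6
      exact ⟨_, h5 h7, rfl⟩
    intro g hg
    rw [Subgroup.mem_normalizer_iff]
    intro r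
    refine ⟨key g hg r, fun hr => ?_⟩
    have := key g⁻¹ (inv_mem hg) _ hr
    simpa [mul_assoc] using this

theorem normalizer_of {A B : Subgroup G} (h : ∀ x ∈ B, ∀ a ∈ A, x * a * x⁻¹ ∈ A) :
    B ≤ Subgroup.normalizer (A : Set G) := by
  intro x hx
  rw [Subgroup.mem_normalizer_iff]
  intro a
  refine ⟨h x hx a, fun ha => ?_⟩
  have := h x⁻¹ (inv_mem hx) _ ha
  simpa [mul_assoc] using this

theorem not_dvd_zE [Fact ℓ.Prime] [Finite G] {N E : Subgroup G} (hE : E.Normal) (hEN : E ≤ N)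
    (hO : opCore ℓ N = ⊥) :
    ¬ ℓ ∣ Nat.card (Subgroup.centralizer (E : Set G) ⊓ E : Subgroup G) := by
  have hℓ := (inferInstance : Fact ℓ.Prime)
  set Z : Subgroup G := Subgroup.centralizer (E : Set G) ⊓ E with hZ
  have hZc : ∀ x ∈ Z, ∀ y ∈ Z, x * y = y * x := by
    intro x hx y hy
    exact (Subgroup.mem_centralizer_iff.1 hx.1 y hy.2).symm
  have hZn : ∀ g : G, ∀ x ∈ Z, g * x * g⁻¹ ∈ Z := by
    intro g x hx
    refine ⟨Subgroup.mem_centralizer_iff.2 fun e he => ?_, hE.conj_mem x hx.2 g⟩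
    have h1 : g⁻¹ * e * g ∈ E := by simpa using hE.conj_mem e he g⁻¹
    have h2 := Subgroup.mem_centralizer_iff.1 hx.1 _ h1
    calc e * (g * x * g⁻¹) = g * ((g⁻¹ * e * g) * x) * g⁻¹ := by group
      _ = g * (x * (g⁻¹ * e * g)) * g⁻¹ := by rw [h2]
      _ = g * x * g⁻¹ * e := by group
  let Ω : Subgroup G :=
    { carrier := {z | z ∈ Z ∧ z ^ ℓ = 1}
      one_mem' := ⟨one_mem _, one_pow _⟩
      mul_mem' := by
        rintro x y ⟨hx, hx1⟩ ⟨hy, hy1⟩
        refine ⟨mul_mem hx hy, ?_⟩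
        have hc : Commute x y := hZc x hx y hy
        rw [hc.mul_pow, hx1, hy1, one_mul]
      inv_mem' := by
        rintro x ⟨hx, hx1⟩
        exact ⟨inv_mem hx, by rw [inv_pow, hx1, inv_one]⟩ }
  intro hd
  obtain ⟨x, hx⟩ := exists_prime_orderOf_dvd_card' ℓ hd
  have hx1 : (x : G) ^ ℓ = 1 := by
    rw [← hx]
    exact congrArg Subtype.val (pow_orderOf_eq_one x)
  have hxΩ : (x : G) ∈ Ω := ⟨x.2, hx1⟩
  refine opc_ne (R := Ω) (A := N) ?_ ?_ ?_ ?_ hO
  · intro z hz
    exact hEN hz.1.2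
  · intro h
    rw [h, Subgroup.mem_bot] at hxΩ
    have h3 : x = 1 := Subtype.ext hxΩ
    rw [h3, orderOf_one] at hx
    exact hℓ.out.one_lt.ne hx
  · intro z
    refine ⟨1, Subtype.ext ?_⟩
    show (z : G) ^ ℓ ^ 1 = 1
    rw [pow_one]
    exact z.2.2
  · apply normalizer_of
    intro g _ z hz
    refine ⟨hZn g z hz.1, ?_⟩
    rw [conj_pow, hz.2, mul_one, mul_inv_cancel]

theorem not_dvd_of_kills [Fact ℓ.Prime] {A S : Type} [Group A] [Finite A] [Group S] [Finite S]
    (f : A →* S) (hf : Function.Surjective f) (h : ∀ x, (∃ n : ℕ, x ^ ℓ ^ n = 1) → f x = 1) :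
    ¬ ℓ ∣ Nat.card S := by
  have hℓ := (inferInstance : Fact ℓ.Prime)
  intro hd
  obtain ⟨s, hs⟩ := exists_prime_orderOf_dvd_card' ℓ hd
  obtain ⟨y, rfl⟩ := hf s
  obtain ⟨a, m, hm, hy⟩ := Nat.exists_eq_pow_mul_and_not_dvd (orderOf_pos y).ne' ℓ hℓ.out.ne_one
  have h1 : (y ^ m) ^ ℓ ^ a = 1 := by
    rw [← pow_mul, mul_comm, ← hy, pow_orderOf_eq_one]
  have h2 := h (y ^ m) ⟨a, h1⟩
  rw [map_pow] at h2
  have h3 := orderOf_dvd_of_pow_eq_one h2
  rw [hs] at h3
  exact hm h3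

end core

/-! ### Conjugates and orbits -/

section orbits

variable {G : Type} [Group G]

theorem conjS_mul (g h : G) (A : Subgroup G) : conjS g (conjS h A) = conjS (g * h) A := by
  ext x
  simp only [mem_conjS, mul_inv_rev, mul_assoc]

theorem conjS_one (A : Subgroup G) : conjS 1 A = A := by
  ext x
  simp [mem_conjS]

theorem conjS_iSup {ι : Type} (g : G) (A : ι → Subgroup G) :
    conjS g (⨆ i, A i) = ⨆ i, conjS g (A i) := Subgroup.map_iSup _ _

theorem conjS_inf (g : G) (A B : Subgroup G) : conjS g (A ⊓ B) = conjS g A ⊓ conjS g B := by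
  ext x
  simp only [mem_conjS, Subgroup.mem_inf]

/-- the product of the conjugates of `A` under `P` -/
def orb (P A : Subgroup G) : Subgroup G := ⨆ p : P, conjS (p : G) A

theorem conj_orb (P A : Subgroup G) {x : G} (hx : x ∈ Subgroup.normalizer (P : Set G)) :
    conjS x (orb P A) = orb P (conjS x A) := by
  unfold orb
  rw [conjS_iSup]
  apply le_antisymm
  · refine iSup_le fun p => ?_
    have h1 : x * p * x⁻¹ ∈ P := (Subgroup.mem_normalizer_iff.1 hx p).1 p.2
    refine le_trans (le_of_eq ?_)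
      (le_iSup (fun q : P => conjS (q : G) (conjS x A)) ⟨x * p * x⁻¹, h1⟩)
    rw [conjS_mul, conjS_mul, inv_mul_cancel_right]
  · refine iSup_le fun p => ?_
    have h1 : x⁻¹ * p * x ∈ P := by
      have := (Subgroup.mem_normalizer_iff.1 (inv_mem hx) p).1 p.2
      rwa [inv_inv] at this
    refine le_trans (le_of_eq ?_)
      (le_iSup (fun q : P => conjS x (conjS (q : G) A)) ⟨x⁻¹ * p * x, h1⟩)
    rw [conjS_mul, conjS_mul, ← mul_assoc, ← mul_assoc, mul_inv_cancel, one_mul]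

theorem orb_conj (P A : Subgroup G) {p : G} (hp : p ∈ P) : orb P (conjS p A) = orb P A := by
  unfold orb
  apply le_antisymm
  · refine iSup_le fun q => ?_
    refine le_trans (le_of_eq ?_)
      (le_iSup (fun r : P => conjS (r : G) A) ⟨q * p, P.mul_mem q.2 hp⟩)
    rw [conjS_mul]
  · refine iSup_le fun q => ?_
    refine le_trans (le_of_eq ?_)
      (le_iSup (fun r : P => conjS (r : G) (conjS p A)) ⟨q * p⁻¹, P.mul_mem q.2 (inv_mem hp)⟩)
    rw [conjS_mul, inv_mul_cancel_right]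

theorem conj_orb_self (P A : Subgroup G) {p : G} (hp : p ∈ P) : conjS p (orb P A) = orb P A := by
  rw [conj_orb P A (Subgroup.le_normalizer hp), orb_conj P A hp]

/-- the subgroup generated by the elements of `A` of order a power of `ℓ` -/
def Ogr (ℓ : ℕ) (A : Subgroup G) : Subgroup G :=
  Subgroup.closure {x | x ∈ A ∧ ∃ n : ℕ, x ^ ℓ ^ n = 1}

theorem ogr_le (ℓ : ℕ) (A : Subgroup G) : Ogr ℓ A ≤ A :=
  (Subgroup.closure_le _).2 fun _ hx => hx.1

theorem oup_map (ℓ : ℕ) (A : Subgroup G) : (Oup ℓ A).map A.subtype = Ogr ℓ A := by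
  unfold Oup Ogr
  rw [MonoidHom.map_closure]
  congr 1
  ext x
  constructor
  · rintro ⟨y, ⟨n, hn⟩, rfl⟩
    exact ⟨y.2, n, congrArg Subtype.val hn⟩
  · rintro ⟨hx, n, hn⟩
    exact ⟨⟨x, hx⟩, ⟨n, Subtype.ext hn⟩, rfl⟩

theorem conjS_ogr (ℓ : ℕ) (g : G) (A : Subgroup G) : conjS g (Ogr ℓ A) = Ogr ℓ (conjS g A) := by
  unfold Ogr
  rw [conjS, MonoidHom.map_closure]
  congr 1
  ext x
  constructor
  · rintro ⟨y, ⟨hy, n, hn⟩, rfl⟩
    refine ⟨⟨y, hy, rfl⟩, n, ?_⟩
    rw [← map_pow, hn, map_one]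
  · rintro ⟨⟨y, hy, rfl⟩, n, hn⟩
    refine ⟨y, ⟨hy, n, ?_⟩, rfl⟩
    rw [← map_pow] at hn
    exact (MulAut.conj g).injective (hn.trans (map_one _).symm)

variable {ℓ : ℕ} {𝒜 : Fam} {E : Subgroup G} {I : Type} {K : I → Subgroup G}

theorem orb_eq_iSup (P : Subgroup G) (hcj : ∀ g i, ∃ j, conjS g (K i) = K j) (i : I) :
    (⨆ j : {j // ∃ p ∈ P, conjS p (K i) = K j}, K j.1) = orb P (K i) := by
  apply le_antisymm
  · refine iSup_le ?_
    rintro ⟨j, p, hp, hj⟩
    refine le_trans (le_of_eq ?_) (le_iSup (fun r : P => conjS (r : G) (K i)) ⟨p, hp⟩)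
    exact hj.symm
  · refine iSup_le fun p => ?_
    obtain ⟨j, hj⟩ := hcj p i
    rw [hj]
    exact le_iSup (fun j : {j // ∃ p ∈ P, conjS p (K i) = K j} => K j.1) ⟨j, p, p.2, hj⟩

theorem orb_comm (P : Subgroup G) (hK : LayD ℓ 𝒜 E I K) (hcj : ∀ g i, ∃ j, conjS g (K i) = K j)
    {i i' : I} (hne : orb P (K i) ≠ orb P (K i')) :
    orb P (K i) ≤ Subgroup.centralizer (orb P (K i') : Set G) := by
  refine iSup_le fun p => ?_
  rw [Subgroup.le_centralizer_iff]
  refine iSup_le fun q => ?_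
  rw [Subgroup.le_centralizer_iff]
  obtain ⟨j, hj⟩ := hcj p i
  obtain ⟨j', hj'⟩ := hcj q i'
  have hjj : j ≠ j' := by
    rintro rfl
    apply hne
    rw [← orb_conj P (K i) p.2, hj, ← hj', orb_conj P (K i') q.2]
  rw [hj, hj']
  intro x hx
  rw [Subgroup.mem_centralizer_iff]
  intro y hy
  exact (hK.comm j j' hjj x hx y hy).symm

theorem sup_orb (P : Subgroup G) (hK : LayD ℓ 𝒜 E I K) (hcj : ∀ g i, ∃ j, conjS g (K i) = K j) :
    (⨆ A : {A : Subgroup G // ∃ i, A = orb P (K i)}, A.1) = E := by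
  apply le_antisymm
  · refine iSup_le ?_
    rintro ⟨_, i, rfl⟩
    refine iSup_le fun p => ?_
    obtain ⟨j, hj⟩ := hcj p i
    rw [hj, ← hK.sup]
    exact le_iSup K j
  · rw [← hK.sup]
    refine iSup_le fun i => ?_
    refine le_trans ?_
      (le_iSup (fun A : {A : Subgroup G // ∃ i, A = orb P (K i)} => A.1) ⟨_, i, rfl⟩)
    refine le_trans (le_of_eq ?_) (le_iSup (fun r : P => conjS (r : G) (K i)) 1)
    exact (conjS_one _).symm

theorem orb_le (P : Subgroup G) (hK : LayD ℓ 𝒜 E I K) (hcj : ∀ g i, ∃ j, conjS g (K i) = K j)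
    (i : I) : orb P (K i) ≤ E := by
  rw [← sup_orb P hK hcj]
  exact le_iSup (fun A : {A : Subgroup G // ∃ i, A = orb P (K i)} => A.1) ⟨_, i, rfl⟩

/-- the centre of the product of the factors of one orbit -/
theorem zorb_le (P : Subgroup G) (hK : LayD ℓ 𝒜 E I K) (hcj : ∀ g i, ∃ j, conjS g (K i) = K j)
    (i : I) : Subgroup.centralizer (orb P (K i) : Set G) ⊓ orb P (K i) ≤
      Subgroup.centralizer (E : Set G) ⊓ E := by
  rintro x ⟨hx1, hx2⟩
  refine ⟨?_, orb_le P hK hcj i hx2⟩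
  have h1 : E ≤ Subgroup.centralizer ({x} : Set G) := by
    rw [← sup_orb P hK hcj]
    refine iSup_le ?_
    rintro ⟨_, i', rfl⟩ y hy
    rw [Subgroup.mem_centralizer_iff]
    rintro _ rfl
    by_cases h : orb P (K i) = orb P (K i')
    · have hy' : y ∈ orb P (K i) := by rw [h]; exact hy
      exact (Subgroup.mem_centralizer_iff.1 hx1 y hy').symm
    · have h2 := orb_comm P hK hcj h hx2
      exact (Subgroup.mem_centralizer_iff.1 h2 y hy).symm
  show x ∈ Subgroup.centralizer (E : Set G)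
  rw [Subgroup.mem_centralizer_iff]
  intro y hy
  exact ((Subgroup.mem_centralizer_iff.1 (h1 hy)) x rfl).symm

end orbits

/-- the three alternatives for one orbit -/
theorem alt_orb (horb : OrbfStmt) (halt : AltStmt) {ℓ : ℕ} [Fact ℓ.Prime] {𝒜 : Fam}
    (hA : ClosedF ℓ 𝒜) {G : Type} [Group G] [Finite G] {E P : Subgroup G} (hP : IsPGroup ℓ P)
    {I : Type} [Finite I] {K : I → Subgroup G} (hK : LayD ℓ 𝒜 E I K)
    (hinj : ∀ i j, K i = K j → i = j) (hcj : ∀ g i, ∃ j, conjS g (K i) = K j)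
    (hZ : ¬ ℓ ∣ Nat.card (Subgroup.centralizer (E : Set G) ⊓ E : Subgroup G)) (i : I) :
    opCore ℓ (Subgroup.centralizer (P : Set G) ⊓ orb P (K i) : Subgroup G) ≠ ⊥ ∨
      Lay ℓ 𝒜 (Ogr ℓ (Subgroup.centralizer (P : Set G) ⊓ orb P (K i))) ∨
      InvA ℓ 𝒜 (Subgroup.centralizer (P : Set G) ⊓ orb P (K i) : Subgroup G) := by
  have hsup := orb_eq_iSup P hcj i
  have hdvd : ¬ ℓ ∣ Nat.card (Subgroup.centralizer
      ((⨆ j : {j // ∃ p ∈ P, conjS p (K i) = K j}, K j.1 : Subgroup G) : Set G) ⊓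
      (⨆ j : {j // ∃ p ∈ P, conjS p (K i) = K j}, K j.1) : Subgroup G) := by
    rw [hsup]
    exact fun h => hZ (h.trans (Subgroup.card_dvd_of_le (zorb_le P hK hcj i)))
  obtain ⟨S, g1, g2, h1, h2, h3, h4⟩ := hK.cov i
  obtain ⟨Q, hQ, π, hπ, hker, hcard⟩ := horb ℓ G P hP
    {j // ∃ p ∈ P, conjS p (K i) = K j} (fun j => K j.1)
    (fun a b hab x hx y hy => hK.comm a.1 b.1 (fun h => hab (Subtype.ext h)) x hx y hy)
    (fun a b hab => Subtype.ext (hinj _ _ hab))
    (by
      rintro p hp ⟨a, q, hq, ha⟩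
      obtain ⟨b, hb⟩ := hcj (p * q) i
      refine ⟨⟨b, p * q, P.mul_mem hp hq, hb⟩, ?_⟩
      show conjS p (K a) = K b
      rw [← ha, conjS_mul, hb])
    (by
      rintro ⟨a, q, hq, ha⟩ ⟨b, r, hr, hb⟩
      refine ⟨r * q⁻¹, P.mul_mem hr (inv_mem hq), ?_⟩
      show conjS (r * q⁻¹) (K a) = K b
      rw [← ha, conjS_mul, inv_mul_cancel_right, hb])
    hdvd ⟨i, 1, one_mem _, conjS_one _⟩ S h1 h4
  have h5 := halt ℓ 𝒜 hA S h1 h2 h3 Q hQ _ π hπ hker hcard
  rw [hsup] at h5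
  rcases h5 with h5 | h5 | h5
  · exact Or.inl h5
  · right; left
    rw [← oup_map]
    exact lay_map _ (Subgroup.subtype_injective _) h5
  · exact Or.inr (Or.inr h5)

/-- FXC: centralisers of `ℓ`-groups -/
theorem fxc (hprm : PrmStmt) (hfxp : FxpStmt) (horb : OrbfStmt) (halt : AltStmt)
    (hsqf : SqfStmt) (hlyu : LyuStmt) : FxcStmt := by
  intro ℓ hℓ 𝒜 hA G _ _ N hN hO hcls P hP X hCX hXP
  obtain ⟨E, hE, hEN, ⟨I, hI, K, hK⟩, hmod⟩ := hcls
  obtain ⟨hinj, hcj0, -, -⟩ := hprm ℓ 𝒜 G E I K hK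
  have hcj : ∀ g i, ∃ j, conjS g (K i) = K j := by
    intro g i
    refine hcj0 g ?_ i
    have h1 : (⊤ : Subgroup G) ≤ Subgroup.normalizer (E : Set G) :=
      normalizer_of fun x _ a ha => hE.conj_mem a ha x
    exact h1 (Subgroup.mem_top g)
  have hZ := not_dvd_zE hE hEN hO
  -- the centraliser and its parts
  set C : Subgroup G := Subgroup.centralizer (P : Set G) with hC
  let J : Type := {A : Subgroup G // ∃ i, A = orb P (K i)}
  have hJf : Finite J := Subtype.finite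
  have hJcomm : ∀ A B : J, A ≠ B → ∀ x ∈ A.1, ∀ y ∈ B.1, x * y = y * x := by
    rintro ⟨_, i, rfl⟩ ⟨_, i', rfl⟩ hne x hx y hy
    have h1 : orb P (K i) ≠ orb P (K i') := fun h => hne (Subtype.ext h)
    exact (Subgroup.mem_centralizer_iff.1 (orb_comm P hK hcj h1 hx) y hy).symm
  have hJsup : (⨆ A : J, A.1) = E := sup_orb P hK hcj
  have hfix : C ⊓ E = ⨆ A : J, C ⊓ A.1 := by
    have h1 := hfxp ℓ G P hP J (fun A => A.1) hJcomm
      (by
        rintro ⟨_, i, rfl⟩ p hp
        exact mem_normalizer_iff_conjS.2 (conj_orb_self P (K i) hp))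
      (by
        rw [hJsup]
        exact hZ)
    rw [hJsup] at h1
    exact h1
  -- `X` normalises the centraliser and permutes the parts
  have hXC : ∀ x ∈ X, conjS x C = C := by
    intro x hx
    have h1 := Subgroup.mem_normalizer_iff.1 (hXP hx)
    have h2 := Subgroup.mem_normalizer_iff.1 (inv_mem (hXP hx))
    ext c
    rw [mem_conjS, hC, Subgroup.mem_centralizer_iff, Subgroup.mem_centralizer_iff]
    constructor
    · intro h p hp
      have h3 : x⁻¹ * p * x ∈ P := by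
        have := (h2 p).1 hp
        rwa [inv_inv] at this
      have h4 := h _ h3
      calc p * c = x * ((x⁻¹ * p * x) * (x⁻¹ * c * x)) * x⁻¹ := by group
        _ = x * ((x⁻¹ * c * x) * (x⁻¹ * p * x)) * x⁻¹ := by rw [h4]
        _ = c * p := by group
    · intro h p hp
      have h3 : x * p * x⁻¹ ∈ P := (h1 p).1 hp
      have h4 := h _ h3
      calc p * (x⁻¹ * c * x) = x⁻¹ * ((x * p * x⁻¹) * c) * x := by group
        _ = x⁻¹ * (c * (x * p * x⁻¹)) * x := by rw [h4]
        _ = x⁻¹ * c * x * p := by group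
  have hXJ : ∀ x ∈ X, ∀ A : J, ∃ B : J, conjS x A.1 = B.1 := by
    rintro x hx ⟨_, i, rfl⟩
    obtain ⟨j, hj⟩ := hcj x i
    refine ⟨⟨orb P (K j), j, rfl⟩, ?_⟩
    show conjS x (orb P (K i)) = orb P (K j)
    rw [conj_orb P (K i) (hXP hx), hj]
  have hCEX : X ≤ Subgroup.normalizer ((C ⊓ E : Subgroup G) : Set G) := by
    intro x hx
    rw [mem_normalizer_iff_conjS, conjS_inf, hXC x hx]
    congr 1
    exact mem_normalizer_iff_conjS.1 (normalizer_of (B := ⊤)
      (fun x _ a ha => hE.conj_mem a ha x) (Subgroup.mem_top x))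
  have hCEN : C ⊓ E ≤ C ⊓ N := inf_le_inf_left _ hEN
  by_cases hcase : ∃ A : J, opCore ℓ (C ⊓ A.1 : Subgroup G) ≠ ⊥
  · left
    obtain ⟨A, hA1⟩ := hcase
    obtain ⟨R, hR1, hR2, hR3, hR4⟩ := opc_spec hA1
    have h1 : opCore ℓ (C ⊓ E : Subgroup G) ≠ ⊥ := by
      refine opc_ne (R := R) ?_ hR2 hR3 ?_
      · rw [hfix]
        exact hR1.trans (le_iSup (fun A : J => C ⊓ A.1) A)
      · rw [hfix]
        refine iSup_le fun B => ?_
        by_cases hBA : B = A
        · rw [hBA]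
          exact Subgroup.le_normalizer.trans hR4
        · apply normalizer_of
          intro x hx r hr
          have h2 : x * r = r * x := hJcomm B A hBA x hx.2 r (hR1 hr).2
          rw [h2, mul_inv_cancel_right]
          exact hr
    obtain ⟨R', hR1', hR2', hR3', hR4'⟩ := opc_spec h1
    have hR'X : R' ≤ X := hR1'.trans (inf_le_left.trans hCX)
    refine opc_ne (R := R'.subgroupOf X) ?_ ?_ ?_ ?_
    · intro x hx
      exact hCEN (hR1' hx)
    · intro h
      rw [Subgroup.subgroupOf_eq_bot] at h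
      exact hR2' (h.eq_bot_of_le hR'X)
    · exact hR3'.of_equiv (Subgroup.subgroupOfEquivOfLe hR'X).symm
    · apply normalizer_of
      intro x _ r hr
      exact (Subgroup.mem_normalizer_iff.1 (hR4' (hCEX x.2)) _).1 hr
  · right
    push Not at hcase
    let J' : Type := {A : J // Lay ℓ 𝒜 (Ogr ℓ (C ⊓ A.1))}
    have hJ'f : Finite J' := Subtype.finite
    set E' : Subgroup G := ⨆ A : J', Ogr ℓ (C ⊓ A.1.1) with hE'
    have hLay : Lay ℓ 𝒜 E' := by
      refine hlyu ℓ 𝒜 G J' (fun A => Ogr ℓ (C ⊓ A.1.1)) (fun A => A.2) ?_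
      intro A B hAB x hx y hy
      exact hJcomm A.1 B.1 (fun h => hAB (Subtype.ext h)) x (ogr_le ℓ _ hx).2 y
        (ogr_le ℓ _ hy).2
    have hE'CE : E' ≤ C ⊓ E := by
      refine iSup_le fun A => (ogr_le ℓ _).trans ?_
      rw [hfix]
      exact le_iSup (fun A : J => C ⊓ A.1) A.1
    have hXE' : X ≤ Subgroup.normalizer (E' : Set G) := by
      have h1 : ∀ x ∈ X, conjS x E' ≤ E' := by
        intro x hx
        rw [hE', conjS_iSup]
        refine iSup_le fun A => ?_
        obtain ⟨B, hB⟩ := hXJ x hx A.1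
        have h2 : conjS x (C ⊓ A.1.1) = C ⊓ B.1 := by
          rw [conjS_inf, hXC x hx, hB]
        have h3 : conjS x (Ogr ℓ (C ⊓ A.1.1)) = Ogr ℓ (C ⊓ B.1) := by
          rw [conjS_ogr, h2]
        have h4 : Lay ℓ 𝒜 (Ogr ℓ (C ⊓ B.1)) := by
          rw [← h3]
          exact lay_map _ (MulAut.conj x).injective A.2
        rw [h3]
        exact le_iSup (fun A : J' => Ogr ℓ (C ⊓ A.1.1)) ⟨B, h4⟩
      apply normalizer_of
      intro x hx a ha
      apply h1 x hx
      rw [mem_conjS]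
      simpa [mul_assoc] using ha
    have hCE'X : C ⊓ E ≤ X := inf_le_left.trans hCX
    -- the simple groups involved in the quotient
    have hModG : ModA ℓ 𝒜 (C ⊓ N) E' := by
      intro S _ _ hS hd L hL f hf hfE
      have hLX : L ≤ X := hL.trans (inf_le_left.trans hCX)
      have hnorm : ((C ⊓ E).subgroupOf L).Normal :=
        Subgroup.normal_subgroupOf_of_le_normalizer (hLX.trans hCEX)
      have hnS := hnorm.map f hf
      have hsimp := hS.1
      rcases hnS.eq_bot_or_eq_top with h1 | h1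
      · -- trivial on `L ∩ E`
        refine hmod S hS hd L (hL.trans inf_le_right) f hf ?_
        intro x hx
        have h2 : x ∈ (C ⊓ E).subgroupOf L := ⟨(hL x.2).1, hx⟩
        have h3 : f x ∈ ((C ⊓ E).subgroupOf L).map f := ⟨x, h2, rfl⟩
        rw [h1, Subgroup.mem_bot] at h3
        exact h3
      · obtain ⟨A, L₂, f₂, hL₂, hf₂, hf₂E⟩ := hsqf G J (fun A => C ⊓ A.1) E'
          (fun A B hAB x hx y hy => hJcomm A B hAB x hx.2 y hy.2)
          (by
            rw [← hfix]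
            exact hCE'X.trans hXE')
          (by
            rw [← hfix]
            exact hE'CE) S hS (L ⊓ (C ⊓ E)) (f.comp (Subgroup.inclusion inf_le_left))
          (by
            rw [← hfix]
            exact inf_le_right)
          (by
            intro s
            have h2 : s ∈ ((C ⊓ E).subgroupOf L).map f := by
              rw [h1]
              exact Subgroup.mem_top s
            obtain ⟨x, hx, rfl⟩ := h2
            exact ⟨⟨x.1, x.2, hx⟩, rfl⟩)
          (by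
            intro x hx
            exact hfE _ hx)
        -- the alternatives for `A`
        have halt' : Lay ℓ 𝒜 (Ogr ℓ (C ⊓ A.1)) ∨ InvA ℓ 𝒜 (C ⊓ A.1 : Subgroup G) := by
          obtain ⟨B, i, rfl⟩ := A
          rcases alt_orb horb halt hA hP hK hinj hcj hZ i with h | h | h
          · exact absurd (hcase ⟨_, i, rfl⟩) h
          · exact Or.inl h
          · exact Or.inr h
        rcases halt' with h2 | h2
        · exfalso
          refine not_dvd_of_kills f₂ hf₂ ?_ hd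
          rintro x ⟨n, hn⟩
          apply hf₂E
          have h3 : (x : G) ∈ Ogr ℓ (C ⊓ A.1) :=
            Subgroup.subset_closure ⟨hL₂ x.2, n, congrArg Subtype.val hn⟩
          exact le_iSup (fun A : J' => Ogr ℓ (C ⊓ A.1.1)) ⟨A, h2⟩ h3
        · refine h2 S hS hd ?_
          exact Involves.of_le hL₂ ⟨⊤, f₂.comp (⊤ : Subgroup L₂).subtype, fun s => by
            obtain ⟨y, hy⟩ := hf₂ s
            exact ⟨⟨y, Subgroup.mem_top y⟩, hy⟩⟩
    refine ⟨E'.subgroupOf X, Subgroup.normal_subgroupOf_of_le_normalizer hXE', ?_,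
      lay_subgroupOf (hE'CE.trans hCE'X) hLay, modA_subgroupOf X hModG⟩
    intro x hx
    exact hCEN (hE'CE hx)

end Pool.Agent.PP.X2.H51
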